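import Pool.Agent.H21.GH.Mot
import Mathlib.Algebra.FiveLemma

/-!
# The conjectures of Tate and Beilinson over finite fields, and graph hypersurfaces

For a finite simple graph `G` with the vertices `1, …, n` let `Ĝ` be the cone over `G`: the graph with
one more vertex, which is joined to all vertices of `G`. The graph hypersurface `X_G = kirS k G` is the
zero set, in the affine space of the edges of `Ĝ` over `k`, of the determinant of the reduced Laplacian
of `Ĝ` with variable weights of the edges. By the theorem of Kirchhoff this determinant is the sum of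
the products `∏_{e ∈ T} x_e` over the spanning trees `T` of `Ĝ`.

Let `k = 𝔽_p` and let `ℓ` be a prime different from `p`. In the intended use, for a separated scheme `X`
of finite type over `k`,

* `D.M X i n` is `CH_n(X, i) ⊗ ℚ_ℓ`, where `CH_n(X, i)` is the higher Chow group of Bloch: the homology
  in degree `i` of the complex of cycles of dimension `n + i` on `X × Δ^i`; so `D.M X 0 n` is
  `CH_n(X) ⊗ ℚ_ℓ`, and `D.M X i n = 0` for `i < 0`;
* `D.E X i n` is the generalized eigenspace for the eigenvalue `1` of Frobenius on the Borel-Moore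
  homology `H_{2n+i}(X ⊗ 𝔽̄_p, ℚ_ℓ(n))`; for smooth `X` of pure dimension `d` this is
  `H^{2(d-n)-i}(X ⊗ 𝔽̄_p, ℚ_ℓ(d-n))`;
* `D.c X i n : D.M X i n → D.E X i n` is the cycle class map.

`IsCycle` records the standard properties: invariance under isomorphisms, compatible long exact
localization sequences, and the compatible formulas for affine bundles and for products with `𝔾_m`.
`Good D X` says that all cycle class maps of `X` are bijective.

For smooth projective `Y` the bijectivity of `D.c Y 0 n` for all `n` says that the cycle classes span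
the generalized eigenspace for the eigenvalue `q^m` of Frobenius on all `H^{2m}(Y)` (the strong form of
the conjecture of Tate), and that rational and homological equivalence agree (the conjecture of
Beilinson); the two together imply that rational and numerical equivalence agree. If this holds for all
`Y` over `𝔽_p`, then it holds over all finite fields `k` of characteristic `p`, and `CHMot(k)` is the
category of numerical motives and so abelian (Jannsen). Conversely, the strong form of the conjecture
of Tate for all `Y` and the abelianness of the categories `CHMot(k)` imply the conjecture of Beilinson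
(library, `PoleOrderBound`).

**Theorem.** The following are equivalent:
1. (Tate, Beilinson) `D.c Y 0 n` is bijective for all smooth projective varieties `Y` over `𝔽_p` and
  all `n`;
2. `D.c X i n` is bijective for all separated schemes `X` of finite type over `𝔽_p` and all `i`, `n`;
3. `D.c X_G i n` is bijective for the graph hypersurfaces `X_G` over `𝔽_p` of all finite graphs `G` and
  all `i`, `n`.

The hypotheses `purity` (Deligne), `parshin` (Geisser: the conjectures of Tate and Beilinson imply the
conjecture of Parshin) and `alterations` (de Jong; Jannsen, Geisser) are known theorems; they are only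
used for the implication from 1 to 2. The implications from 3 to 2 and to 1 use only `IsCycle`.
-/

set_option autoImplicit false

open CategoryTheory AlgebraicGeometry Pool.Agent.Y116.UV Pool.Agent.Z125.UN
  Pool.Agent.Q193.LT Pool.Agent.H21.GH

namespace Pool.Agent.Results.MP_6c4da4_ag.GraphHypersurfaces

/-- Groups `M X i n`, `E X i n` and homomorphisms `c : M X i n → E X i n`. -/
structure CycleData (k : Type) [CommRing k] where
  /-- `CH_n(X, i) ⊗ ℚ_ℓ` -/
  M : Sch k → ℤ → ℤ → Type
  /-- the generalized eigenspace for the eigenvalue `1` of Frobenius on `H_{2n+i}(X, ℚ_ℓ(n))` -/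
  E : Sch k → ℤ → ℤ → Type
  [grpM : ∀ X i n, AddCommGroup (M X i n)]
  [grpE : ∀ X i n, AddCommGroup (E X i n)]
  /-- the cycle class map -/
  c : ∀ X i n, M X i n →+ E X i n

attribute [instance] CycleData.grpM CycleData.grpE

section

variable {A B C A' B' : Type} [AddCommGroup A] [AddCommGroup B] [AddCommGroup C] [AddCommGroup A']
  [AddCommGroup B']

/-- The square with `f : A → B`, `f' : A' → B'`, `a : A → A'`, `b : B → B'` commutes. -/
def Square (f : A →+ B) (f' : A' →+ B') (a : A →+ A') (b : B →+ B') : Prop :=
  f'.comp a = b.comp f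

/-- The sequence `A → B → C` is exact in `B`. -/
def ExactAt (f : A →+ B) (g : B →+ C) : Prop := ∀ y, g y = 0 ↔ ∃ x, f x = y

/-- The homomorphisms `f` and `f'` are isomorphic. -/
def Same (f : A →+ B) (f' : A' →+ B') : Prop :=
  ∃ (a : A ≃+ A') (b : B ≃+ B'), ∀ x, f' (a x) = b (f x)

lemma Same.bijective {f : A →+ B} {g : A' →+ B'} (h : Same f g) :
    Function.Bijective f ↔ Function.Bijective g := by
  obtain ⟨a, b, hab⟩ := h
  have h1 : g ∘ a = b ∘ f := funext hab
  have h2 := b.toEquiv.comp_bijective (f : A → B)
  have h3 := a.toEquiv.bijective_comp (g : A' → B')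
  rw [← h2, ← h3]
  exact iff_of_eq (congrArg _ h1.symm)

lemma ExactAt.exact {f : A →+ B} {g : B →+ C} (h : ExactAt f g) : Function.Exact f g := h

end

/-- Homomorphisms `A_i → B_i → C_i → A_{i-1}`. -/
structure Maps (A B C : ℤ → Type) [∀ i, AddCommGroup (A i)] [∀ i, AddCommGroup (B i)]
    [∀ i, AddCommGroup (C i)] where
  /-- `A_i → B_i` -/
  f : ∀ i, A i →+ B i
  /-- `B_i → C_i` -/
  g : ∀ i, B i →+ C i
  /-- `C_i → A_j` for `j = i - 1` -/
  d : ∀ i j, j + 1 = i → (C i →+ A j)

section

variable {A B C : ℤ → Type} [∀ i, AddCommGroup (A i)] [∀ i, AddCommGroup (B i)]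
  [∀ i, AddCommGroup (C i)] {A' B' C' : ℤ → Type} [∀ i, AddCommGroup (A' i)]
  [∀ i, AddCommGroup (B' i)] [∀ i, AddCommGroup (C' i)]

/-- The sequence `⋯ → A_i → B_i → C_i → A_{i-1} → ⋯` is exact. -/
structure Maps.Long (s : Maps A B C) : Prop where
  mid : ∀ i, ExactAt (s.f i) (s.g i)
  right : ∀ i j h, ExactAt (s.g i) (s.d i j h)
  left : ∀ i j h, ExactAt (s.d i j h) (s.f j)

/-- Homomorphisms `A_i → A'_i`, `B_i → B'_i`, `C_i → C'_i`. -/
structure Hom (A B C A' B' C' : ℤ → Type) [∀ i, AddCommGroup (A i)] [∀ i, AddCommGroup (B i)]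
    [∀ i, AddCommGroup (C i)] [∀ i, AddCommGroup (A' i)] [∀ i, AddCommGroup (B' i)]
    [∀ i, AddCommGroup (C' i)] where
  /-- `A_i → A'_i` -/
  a : ∀ i, A i →+ A' i
  /-- `B_i → B'_i` -/
  b : ∀ i, B i →+ B' i
  /-- `C_i → C'_i` -/
  c : ∀ i, C i →+ C' i

/-- The homomorphisms are compatible with the two sequences. -/
structure Hom.Compat (t : Hom A B C A' B' C') (s : Maps A B C) (s' : Maps A' B' C') : Prop where
  f : ∀ i, Square (s.f i) (s'.f i) (t.a i) (t.b i)
  g : ∀ i, Square (s.g i) (s'.g i) (t.b i) (t.c i)
  d : ∀ i j h, Square (s.d i j h) (s'.d i j h) (t.c i) (t.a j)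

/-- The five lemma for the middle groups. -/
lemma mid {s : Maps A B C} {s' : Maps A' B' C'} {t : Hom A B C A' B' C'} (h : s.Long)
    (h' : s'.Long) (hc : t.Compat s s') (ha : ∀ i, Function.Bijective (t.a i))
    (hc' : ∀ i, Function.Bijective (t.c i)) (i : ℤ) : Function.Bijective (t.b i) := by
  obtain ⟨e1, e2, e3⟩ := h
  obtain ⟨e1', e2', e3'⟩ := h'
  obtain ⟨c1, c2, c3⟩ := hc
  exact AddMonoidHom.bijective_of_surjective_of_bijective_of_bijective_of_injective
    (s.d (i + 1) i rfl) (s.f i) (s.g i) (s.d i (i - 1) (sub_add_cancel _ _))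
    (s'.d (i + 1) i rfl) (s'.f i) (s'.g i) (s'.d i (i - 1) (sub_add_cancel _ _))
    (t.c (i + 1)) (t.a i) (t.b i) (t.c i) (t.a (i - 1))
    (c3 _ _ _) (c1 _) (c2 _) (c3 _ _ _) (e3 _ _ _).exact (e1 _).exact (e2 _ _ _).exact
    (e3' _ _ _).exact (e1' _).exact (e2' _ _ _).exact (hc' _).2 (ha _) (hc' _) (ha _).1

/-- The five lemma for the groups on the right. -/
lemma right {s : Maps A B C} {s' : Maps A' B' C'} {t : Hom A B C A' B' C'} (h : s.Long)
    (h' : s'.Long) (hc : t.Compat s s') (ha : ∀ i, Function.Bijective (t.a i))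
    (hb : ∀ i, Function.Bijective (t.b i)) (i : ℤ) : Function.Bijective (t.c i) := by
  obtain ⟨e1, e2, e3⟩ := h
  obtain ⟨e1', e2', e3'⟩ := h'
  obtain ⟨c1, c2, c3⟩ := hc
  exact AddMonoidHom.bijective_of_surjective_of_bijective_of_bijective_of_injective
    (s.f i) (s.g i) (s.d i (i - 1) (sub_add_cancel _ _)) (s.f (i - 1))
    (s'.f i) (s'.g i) (s'.d i (i - 1) (sub_add_cancel _ _)) (s'.f (i - 1))
    (t.a i) (t.b i) (t.c i) (t.a (i - 1)) (t.b (i - 1))
    (c1 _) (c2 _) (c3 _ _ _) (c1 _) (e1 _).exact (e2 _ _ _).exact (e3 _ _ _).exact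
    (e1' _).exact (e2' _ _ _).exact (e3' _ _ _).exact (ha _).2 (hb _) (ha _) (hb _).1

/-- The five lemma for the groups on the left. -/
lemma left {s : Maps A B C} {s' : Maps A' B' C'} {t : Hom A B C A' B' C'} (h : s.Long)
    (h' : s'.Long) (hc : t.Compat s s') (hb : ∀ i, Function.Bijective (t.b i))
    (hc' : ∀ i, Function.Bijective (t.c i)) (i : ℤ) : Function.Bijective (t.a i) := by
  obtain ⟨e1, e2, e3⟩ := h
  obtain ⟨e1', e2', e3'⟩ := h'
  obtain ⟨c1, c2, c3⟩ := hc
  exact AddMonoidHom.bijective_of_surjective_of_bijective_of_bijective_of_injective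
    (s.g (i + 1)) (s.d (i + 1) i rfl) (s.f i) (s.g i)
    (s'.g (i + 1)) (s'.d (i + 1) i rfl) (s'.f i) (s'.g i)
    (t.b (i + 1)) (t.c (i + 1)) (t.a i) (t.b i) (t.c i)
    (c2 _) (c3 _ _ _) (c1 _) (c2 _) (e2 _ _ _).exact (e3 _ _ _).exact (e1 _).exact
    (e2' _ _ _).exact (e3' _ _ _).exact (e1' _).exact (hb _).2 (hc' _) (hb _) (hc' _).1

end

namespace CycleData

variable {k : Type} [CommRing k] (D : CycleData k)

/-- The homomorphisms between the groups `M` for `Z → X ← U`. -/
abbrev MapsM (Z X U : Sch k) (n : ℤ) : Type :=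
  Maps (fun i => D.M Z i n) (fun i => D.M X i n) (fun i => D.M U i n)

/-- The homomorphisms between the groups `E` for `Z → X ← U`. -/
abbrev MapsE (Z X U : Sch k) (n : ℤ) : Type :=
  Maps (fun i => D.E Z i n) (fun i => D.E X i n) (fun i => D.E U i n)

/-- The cycle class maps of `Z`, `X`, `U`. -/
def cs (Z X U : Sch k) (n : ℤ) : Hom (fun i => D.M Z i n) (fun i => D.M X i n)
    (fun i => D.M U i n) (fun i => D.E Z i n) (fun i => D.E X i n) (fun i => D.E U i n) :=
  ⟨fun i => D.c Z i n, fun i => D.c X i n, fun i => D.c U i n⟩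

/-- The groups `M` and `E` of `Z`, `X`, `U` have compatible long exact sequences. -/
def HasSequences (Z X U : Sch k) (n : ℤ) : Prop :=
  ∃ (s : D.MapsM Z X U n) (s' : D.MapsE Z X U n), s.Long ∧ s'.Long ∧ (D.cs Z X U n).Compat s s'

/-- The cycle class map of `X` with the indices `i`, `n` is isomorphic to the one of `Y` with the
indices `j`, `m`. -/
def Iso (X : Sch k) (i n : ℤ) (Y : Sch k) (j m : ℤ) : Prop := Same (D.c X i n) (D.c Y j m)

/-- The cycle class map of `X` with the indices `i`, `n` is isomorphic to the sum of the ones of `Y` with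
the indices `j`, `m` and `j'`, `m'`. -/
def IsoSum (X : Sch k) (i n : ℤ) (Y : Sch k) (j m j' m' : ℤ) : Prop :=
  Same (D.c X i n) ((D.c Y j m).prodMap (D.c Y j' m'))

/-- Exactness of the localization sequences for a closed subscheme `Z` of `X` with the complement
`U`. -/
def Localization : Prop :=
  ∀ {Z X U : Sch k} (a : Z ⟶ X) (b : U ⟶ X), FT True X → IsTriple a b →
    ∀ n, D.HasSequences Z X U n

/-- Isomorphic schemes have isomorphic cycle class maps. -/
def IsoInvariance : Prop :=
  ∀ {X Y : Sch k}, FT True X → Nonempty (X ≅ Y) → ∀ i n, D.Iso X i n Y i n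

/-- For the affine bundle `Spec B[w_1, …, w_m] / (∑ f_l w_l - 1) → U` with fibre `𝔸^{m-1}`, where `U` is
the complement of `f = 0` in `Spec B`, the cycle class map of `U` with the index `n - (m - 1)` is
isomorphic to the one of the total space with the index `n`. -/
def BundleFormula : Prop :=
  ∀ (B : Type) [CommRing B] [Algebra k B] [Algebra.FiniteType k B] (m : ℕ)
    (f : Fin m → B) (U : Sch k) (j : U ⟶ aff k B), IsOpenImmersion j.left →
    Set.range j.left = {x : PrimeSpectrum B | ∃ l, f l ∉ x.asIdeal} →
    ∀ i n, D.Iso U i (n + (1 - m)) (aff k (Jou f)) i n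

/-- The cycle class map of `X × 𝔾_m` with the indices `i`, `n` is the sum of the ones of `X` with the
indices `i`, `n - 1` and `i - 1`, `n`, for affine `X`. -/
def TorusFormula : Prop :=
  ∀ (B : Type) [CommRing B] [Algebra k B] [Algebra.FiniteType k B], ∀ i n,
    D.IsoSum (aff k (LaurentPolynomial B)) i n (aff k B) i (n - 1) (i - 1) n

end CycleData

/-- The standard properties of the cycle class maps. -/
structure IsCycle {k : Type} [CommRing k] (D : CycleData k) : Prop where
  iso : D.IsoInvariance
  exact : D.Localization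
  bundle : D.BundleFormula
  torus : D.TorusFormula

/-- The cycle class maps of `X` are bijective. -/
def Good {k : Type} [CommRing k] (D : CycleData k) (X : Sch k) : Prop :=
  ∀ i n, Function.Bijective (D.c X i n)

/-- Closure properties of the schemes whose cycle class maps are bijective. -/
theorem bnd_good {k : Type} [CommRing k] {D : CycleData k} (hD : IsCycle D)
    (h1 : Good D (aff k k)) : Bnd True (Good D) := by
  have hbun : ∀ (B : Type) [CommRing B] [Algebra k B] [Algebra.FiniteType k B] (m : ℕ)
      (f : Fin m → B) (U : Sch k) (j : U ⟶ aff k B), IsOpenImmersion j.left →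
      Set.range j.left = {x : PrimeSpectrum B | ∃ l, f l ∉ x.asIdeal} →
      (Good D U ↔ Good D (aff k (Jou f))) := by
    intro B _ _ _ m f U j hj hr
    constructor
    · intro h i n
      exact (hD.bundle B m f U j hj hr i n).bijective.mp (h _ _)
    · intro h i n
      have h2 := (hD.bundle B m f U j hj hr i (n - (1 - m))).bijective.mpr (h _ _)
      rwa [sub_add_cancel] at h2
  exact
  { iso := fun hX e h i n => (hD.iso hX e i n).bijective.mp (h i n)
    total := fun a b hX ht hZ hU i n => by
      obtain ⟨s, s', h, h', hc⟩ := hD.exact a b hX ht n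
      exact mid h h' hc (fun i => hZ i n) (fun i => hU i n) i
    opened := fun a b hX ht hZ hX' i n => by
      obtain ⟨s, s', h, h', hc⟩ := hD.exact a b hX ht n
      exact right h h' hc (fun i => hZ i n) (fun i => hX' i n) i
    closed := fun a b hX ht hX' hU i n => by
      obtain ⟨s, s', h, h', hc⟩ := hD.exact a b hX ht n
      exact left h h' hc (fun i => hX' i n) (fun i => hU i n) i
    space := fun n i m => by
      have h2 := (hbun k (n + 1) (f1 k n) (aff k k) (𝟙 _) inferInstance (range_id n)).mp h1
      exact (hD.iso (ft_aff True) ⟨(affIso (jouOne k n)).symm⟩ i m).bijective.mp (h2 i m)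
    jouanolou := fun B _ _ _ m f U j hj hr h => (hbun B m f U j hj hr).mpr h
    torus := fun B _ _ _ h i n => by
      have h2 := (hD.torus B (i + 1) n).bijective.mp (h _ _)
      have h3 : Function.Bijective (D.c (aff k B) (i + 1 - 1) n) := by
        rw [AddMonoidHom.coe_prodMap] at h2
        exact (Prod.map_bijective.mp h2).2
      rwa [add_sub_cancel_right] at h3
    bundle := fun B _ _ _ m f U j hj hr h => (hbun B m f U j hj hr).mp h }

section

variable {k : Type} [Field k] (D : CycleData k)

/-- The cycle class maps of `Y` with `i = 0` are bijective, for all smooth projective `Y`: the strong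
form of the conjecture of Tate and the conjecture of Beilinson. -/
def TateBeilinson : Prop :=
  ∀ Y : Sch k, SmoothProj Y → ∀ n, Function.Bijective (D.c Y 0 n)

/-- Purity (Deligne): for smooth projective `Y` and `i ≠ 0` the eigenvalue `1` does not occur. -/
def Purity : Prop :=
  ∀ Y : Sch k, SmoothProj Y → ∀ i n, i ≠ 0 → Subsingleton (D.E Y i n)

/-- The conjecture of Parshin for all smooth projective `Y`. -/
def Parshin : Prop :=
  ∀ Y : Sch k, SmoothProj Y → ∀ i n, i ≠ 0 → Subsingleton (D.M Y i n)

/-- A consequence of the theorem of de Jong on alterations: if the cycle class maps of the smooth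
projective schemes are bijective, so are those of all schemes. -/
def Alterations : Prop :=
  (∀ Y : Sch k, SmoothProj Y → Good D Y) → ∀ X : Sch k, FT True X → Good D X

end

/-- **The conjectures of Tate and Beilinson and graph hypersurfaces.** See the explanations above. The
hypothesis `hk` says that `k` is a prime field `𝔽_p`. -/
theorem result {k : Type} [Field k] (hk : Function.Surjective (Int.cast : ℤ → k))
    {D : CycleData k} (hD : IsCycle D) (purity : Purity D)
    (parshin : TateBeilinson D → Parshin D) (alterations : Alterations D) :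
    List.TFAE [
      TateBeilinson D,
      ∀ X : Sch k, FT True X → Good D X,
      ∀ (m : ℕ) (G : SimpleGraph (Fin m)), Good D (kirS k G)] := by
  tfae_have 2 → 3 := fun h n G => h _ (ft_kirS G True)
  tfae_have 3 → 2 := fun h => by
    have hp : Good D (aff k k) := fun i n =>
      (hD.iso (ft_kirS _ True) (kirS_point k) i n).bijective.mp (h 1 ⊥ i n)
    exact universal (frac_of_surj hk) (bnd_good hD hp) h
  tfae_have 2 → 1 := fun h Y hY n => h Y hY.ft 0 n
  tfae_have 1 → 2 := fun h => by
    refine alterations fun Y hY i n => ?_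
    rcases eq_or_ne i 0 with rfl | hi
    · exact h Y hY n
    · have h1 := purity Y hY i n hi
      have h2 := parshin h Y hY i n hi
      exact ⟨Function.injective_of_subsingleton _, fun y => ⟨0, Subsingleton.elim _ _⟩⟩
  tfae_finish

end Pool.Agent.Results.MP_6c4da4_ag.GraphHypersurfaces
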